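import Pool.Agent.Helper63.SM.Defs
import Pool.Agent.Helper63.RKS.Mcd

/-!
Concentration of the size of the largest (incomplete) transversal without conflict (project SM, block MC).
-/

set_option autoImplicit false

open MeasureTheory Set Filter Topology

namespace Pool.Agent.Helper63.SM

section conc

variable {X : Type*} [MeasurableSpace X]

/-- selecting coordinates -/
private lemma mp_comp {κ ι : Type*} [Fintype κ] [Fintype ι]
    (μ : Measure X) [IsProbabilityMeasure μ] (f : κ → ι) (hf : Function.Injective f) :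
    MeasurePreserving (fun x : ι → X => x ∘ f) (Measure.pi fun _ : ι => μ)
      (Measure.pi fun _ : κ => μ) := by
  classical
  have hm : Measurable (fun x : ι → X => x ∘ f) :=
    measurable_pi_lambda _ fun j => measurable_pi_apply (f j)
  refine ⟨hm, ?_⟩
  symm
  apply Measure.pi_eq
  intro s hs
  rw [Measure.map_apply hm (MeasurableSet.univ_pi hs)]
  set t : ι → Set X := fun i => if h : ∃ j, f j = i then s h.choose else Set.univ with ht
  have htf : ∀ j, t (f j) = s j := by
    intro j
    have h : ∃ j', f j' = f j := ⟨j, rfl⟩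
    simp only [ht, dif_pos h]
    rw [hf h.choose_spec]
  have e : (fun x : ι → X => x ∘ f) ⁻¹' Set.univ.pi s = Set.univ.pi t := by
    ext x
    simp only [Set.mem_preimage, Set.mem_univ_pi, Function.comp_apply]
    constructor
    · intro h i
      by_cases hi : ∃ j, f j = i
      · obtain ⟨j, rfl⟩ := hi
        rw [htf]; exact h j
      · simp only [ht, dif_neg hi]; trivial
    · intro h j
      have := h (f j)
      rwa [htf] at this
  rw [e, Measure.pi_pi]
  have h1 : ∏ i, μ (t i) = ∏ i ∈ Finset.univ.image f, μ (t i) := by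
    symm
    apply Finset.prod_subset (Finset.subset_univ _)
    intro i _ hi
    have hne : ¬ ∃ j, f j = i := by
      rintro ⟨j, rfl⟩
      exact hi (Finset.mem_image_of_mem f (Finset.mem_univ j))
    simp only [ht, dif_neg hne, measure_univ]
  rw [h1, Finset.prod_image fun a _ b _ h => hf h]
  exact Finset.prod_congr rfl fun j _ => by rw [htf]

private lemma mp_curry (μ : Measure X) [IsProbabilityMeasure μ] (k r : ℕ) :
    MeasurePreserving (Function.curry : (Fin k × Fin r → X) → Fin k → Fin r → X)
      (Measure.pi fun _ : Fin k × Fin r => μ)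
      (Measure.pi fun _ : Fin k => Measure.pi fun _ : Fin r => μ) := by
  refine ⟨measurable_curry, ?_⟩
  have h := Measure.infinitePi_map_curry (fun (_ : Fin k) (_ : Fin r) => μ)
  simp only [Measure.infinitePi_eq_pi] at h
  exact h

/-- the blocks of `r` coordinates -/
private lemma mp_blocks (μ : Measure X) [IsProbabilityMeasure μ] {k r n : ℕ} (hn : k * r ≤ n) :
    MeasurePreserving (fun (x : Fin n → X) (i : Fin k) (j : Fin r) =>
        x (Fin.castLE hn (finProdFinEquiv (i, j))))
      (Measure.pi fun _ : Fin n => μ)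
      (Measure.pi fun _ : Fin k => Measure.pi fun _ : Fin r => μ) := by
  have hinj : Function.Injective fun p : Fin k × Fin r => Fin.castLE hn (finProdFinEquiv p) :=
    (Fin.castLE_injective hn).comp finProdFinEquiv.injective
  exact (mp_curry μ k r).comp (mp_comp μ _ hinj)

/-- no conflict among the chosen points -/
private def Ok (R : X → X → Prop) {k r : ℕ} (ω : Fin k → Fin r → X)
    (p : Finset (Fin k) × (Fin k → Fin r)) : Prop :=
  ∀ i ∈ p.1, ∀ j ∈ p.1, i ≠ j → ¬ R (ω i (p.2 i)) (ω j (p.2 j))

open Classical in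
/-- the size of the largest (incomplete) transversal without conflict -/
private noncomputable def Ym (R : X → X → Prop) {k r : ℕ} (ω : Fin k → Fin r → X) : ℕ :=
  (Finset.univ : Finset (Finset (Fin k) × (Fin k → Fin r))).sup fun p =>
    if Ok R ω p then p.1.card else 0

open Classical in
omit [MeasurableSpace X] in
private lemma le_Ym {R : X → X → Prop} {k r : ℕ} {ω : Fin k → Fin r → X}
    {p : Finset (Fin k) × (Fin k → Fin r)} (h : Ok R ω p) : p.1.card ≤ Ym R ω := by
  have h1 : (if Ok R ω p then p.1.card else 0) ≤ Ym R ω :=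
    Finset.le_sup (f := fun p : Finset (Fin k) × (Fin k → Fin r) =>
      if Ok R ω p then p.1.card else 0) (Finset.mem_univ p)
  rwa [if_pos h] at h1

open Classical in
omit [MeasurableSpace X] in
private lemma exists_Ym {R : X → X → Prop} {k r : ℕ} (hr : 1 ≤ r) (ω : Fin k → Fin r → X) :
    ∃ p, Ok R ω p ∧ p.1.card = Ym R ω := by
  have hne : (Finset.univ : Finset (Finset (Fin k) × (Fin k → Fin r))).Nonempty :=
    ⟨(∅, fun _ => ⟨0, hr⟩), Finset.mem_univ _⟩
  obtain ⟨p, -, hp⟩ := Finset.exists_mem_eq_sup _ hne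
    (fun p : Finset (Fin k) × (Fin k → Fin r) => if Ok R ω p then p.1.card else 0)
  have hp' : Ym R ω = if Ok R ω p then p.1.card else 0 := hp
  by_cases h : Ok R ω p
  · rw [if_pos h] at hp'
    exact ⟨p, h, hp'.symm⟩
  · rw [if_neg h] at hp'
    refine ⟨(∅, p.2), ?_, by rw [hp']; rfl⟩
    intro i hi
    exact absurd hi (Finset.notMem_empty i)

omit [MeasurableSpace X] in
private lemma Ym_le {R : X → X → Prop} {k r : ℕ} (hr : 1 ≤ r) (ω : Fin k → Fin r → X) :
    Ym R ω ≤ k := by
  obtain ⟨p, -, hp⟩ := exists_Ym (R := R) hr ω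
  rw [← hp]
  exact (Finset.card_le_univ _).trans (by simp)

omit [MeasurableSpace X] in
private lemma Ym_update {R : X → X → Prop} {k r : ℕ} (hr : 1 ≤ r) (ω : Fin k → Fin r → X)
    (i : Fin k) (y : Fin r → X) : Ym R ω ≤ Ym R (Function.update ω i y) + 1 := by
  obtain ⟨p, h, hp⟩ := exists_Ym (R := R) hr ω
  have h1 : Ok R (Function.update ω i y) (p.1.erase i, p.2) := by
    intro a ha b hb hab
    have ha' := Finset.mem_erase.1 ha
    have hb' := Finset.mem_erase.1 hb
    simp only
    rw [Function.update_of_ne ha'.1, Function.update_of_ne hb'.1]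
    exact h a ha'.2 b hb'.2 hab
  have h2 := le_Ym h1
  have h3 : p.1.card ≤ (p.1.erase i).card + 1 := by
    have := Finset.pred_card_le_card_erase (s := p.1) (a := i)
    omega
  rw [← hp]
  simp only at h2
  omega

open Classical in
private lemma measurable_Ym {R : X → X → Prop} (hR : MeasurableSet {p : X × X | R p.1 p.2})
    (k r : ℕ) : Measurable (Ym R : (Fin k → Fin r → X) → ℕ) := by
  have h : ∀ s : Finset (Finset (Fin k) × (Fin k → Fin r)),
      Measurable fun ω : Fin k → Fin r → X =>
        s.sup fun p => if Ok R ω p then p.1.card else 0 := by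
    intro s
    induction s using Finset.induction_on with
    | empty => simp only [Finset.sup_empty]; exact measurable_const
    | insert p s hp ih =>
      simp only [Finset.sup_insert]
      refine Measurable.max (Measurable.ite ?_ measurable_const measurable_const) ih
      have : {ω : Fin k → Fin r → X | Ok R ω p} = ⋂ i ∈ p.1, ⋂ j ∈ p.1, ⋂ _ : i ≠ j,
          {ω : Fin k → Fin r → X | ¬ R (ω i (p.2 i)) (ω j (p.2 j))} := by
        ext ω
        simp only [Set.mem_iInter]
        exact Iff.rfl
      rw [this]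
      refine MeasurableSet.iInter fun i => MeasurableSet.iInter fun _ =>
        MeasurableSet.iInter fun j => MeasurableSet.iInter fun _ => MeasurableSet.iInter fun _ => ?_
      have hm : Measurable fun ω : Fin k → Fin r → X => (ω i (p.2 i), ω j (p.2 j)) :=
        ((measurable_pi_apply (p.2 i)).comp (measurable_pi_apply i)).prodMk
          ((measurable_pi_apply (p.2 j)).comp (measurable_pi_apply j))
      exact (hm hR).compl
  exact h Finset.univ

variable {μ : Measure X} [IsProbabilityMeasure μ] {R : X → X → Prop} {k : ℕ}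

theorem conc (hR : MeasurableSet {p : X × X | R p.1 p.2}) {r : ℕ} (hr : 1 ≤ r) (hk : 1 ≤ k)
    {v : ℕ} {t : ℝ} (ht : 0 ≤ t)
    (hq : Real.exp (-(t ^ 2 / (2 * k))) <
      (Measure.pi fun _ : Fin k => Measure.pi fun _ : Fin r => μ).real
        {ω | ∃ (T : Finset (Fin k)) (c : Fin k → Fin r), k < T.card + v ∧
          ∀ i ∈ T, ∀ j ∈ T, i ≠ j → ¬ R (ω i (c i)) (ω j (c j))})
    {n : ℕ} (hn : k * r ≤ n) :
    (Measure.pi fun _ : Fin n => μ).real
      {x | ¬ ∃ I : Finset (Fin n), (∀ i ∈ I, ∀ j ∈ I, i ≠ j → ¬ R (x i) (x j)) ∧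
        (k : ℝ) - v - 2 * t ≤ I.card} ≤ Real.exp (-(t ^ 2 / (2 * k))) := by
  classical
  set ν : Measure (Fin r → X) := Measure.pi fun _ : Fin r => μ with hν
  set P : Measure (Fin k → Fin r → X) := Measure.pi fun _ : Fin k => ν with hP
  set f : (Fin k → Fin r → X) → ℝ := fun ω => (Ym R ω : ℝ) with hf
  have hfm : Measurable f := measurable_from_top.comp (measurable_Ym hR k r)
  have hfK : ∀ ω, |f ω| ≤ (k : ℝ) := by
    intro ω
    have h1 : (Ym R ω : ℝ) ≤ k := by exact_mod_cast Ym_le (R := R) hr ω
    have h0 : (0 : ℝ) ≤ Ym R ω := Nat.cast_nonneg _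
    simp only [hf]
    rwa [abs_of_nonneg h0]
  have hd : ∀ (ω : Fin k → Fin r → X) (i : Fin k) (y : Fin r → X),
      |f (Function.update ω i y) - f ω| ≤ 1 := by
    intro ω i y
    have h1 := Ym_update (R := R) hr ω i y
    have h2 := Ym_update (R := R) hr (Function.update ω i y) i (ω i)
    rw [Function.update_idem, Function.update_eq_self] at h2
    have h1' : (Ym R ω : ℝ) ≤ Ym R (Function.update ω i y) + 1 := by exact_mod_cast h1
    have h2' : (Ym R (Function.update ω i y) : ℝ) ≤ Ym R ω + 1 := by exact_mod_cast h2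
    rw [abs_le]
    constructor
    · simp only [hf]; linarith
    · simp only [hf]; linarith
  set m : ℝ := ∫ ω, f ω ∂P with hm
  -- the mean
  have hmean : (k : ℝ) - v - t < m := by
    by_contra hcon
    rw [not_lt] at hcon
    have h1 := Pool.Agent.Helper63.RKS.mcdiarmid ν hk (fun ω => -f ω) hfm.neg (K := k)
      (fun ω => by rw [abs_neg]; exact hfK ω)
      (fun ω i y => by
        have := hd ω i y
        rw [abs_sub_comm] at this
        calc |-f (Function.update ω i y) - -f ω| = |f ω - f (Function.update ω i y)| := by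
              congr 1; ring
          _ ≤ 1 := this) ht
    refine absurd (hq.trans_le ((measureReal_mono ?_ (measure_ne_top _ _)).trans h1)) (lt_irrefl _)
    rintro ω ⟨T, c, hT, hc⟩
    have h2 : T.card ≤ Ym R ω := le_Ym (p := (T, c)) hc
    have h3 : (k : ℝ) < Ym R ω + v := by
      have : k < Ym R ω + v := by omega
      exact_mod_cast this
    show -f ω ≤ ∫ ω, -f ω ∂P - t
    rw [integral_neg]
    simp only [hf]
    simp only [hf] at hm
    linarith
  have h4 := Pool.Agent.Helper63.RKS.mcdiarmid ν hk f hfm hfK hd ht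
  have hmp := mp_blocks μ hn
  have hset : MeasurableSet {ω : Fin k → Fin r → X | f ω ≤ m - t} := hfm measurableSet_Iic
  have h5 := hmp.measure_preimage hset.nullMeasurableSet
  have h6 : (Measure.pi fun _ : Fin n => μ).real
      ((fun (x : Fin n → X) (i : Fin k) (j : Fin r) =>
        x (Fin.castLE hn (finProdFinEquiv (i, j)))) ⁻¹' {ω | f ω ≤ m - t}) =
      P.real {ω | f ω ≤ m - t} := by
    unfold Measure.real
    rw [h5]
  refine (measureReal_mono ?_ (measure_ne_top _ _)).trans (h6.le.trans h4)
  intro x hx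
  show f _ ≤ m - t
  by_contra hcon
  rw [not_le] at hcon
  apply hx
  set ω : Fin k → Fin r → X := fun i j => x (Fin.castLE hn (finProdFinEquiv (i, j))) with hω
  obtain ⟨p, hp, hpc⟩ := exists_Ym (R := R) hr ω
  have hinj : Function.Injective fun i : Fin k =>
      Fin.castLE hn (finProdFinEquiv (i, p.2 i)) := by
    intro a b hab
    have h7 := finProdFinEquiv.injective (Fin.castLE_injective hn hab)
    exact (Prod.ext_iff.1 h7).1
  refine ⟨p.1.image fun i => Fin.castLE hn (finProdFinEquiv (i, p.2 i)), ?_, ?_⟩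
  · intro a ha b hb hab
    obtain ⟨i, hi, rfl⟩ := Finset.mem_image.1 ha
    obtain ⟨j, hj, rfl⟩ := Finset.mem_image.1 hb
    have hij : i ≠ j := fun h => hab (by rw [h])
    exact hp i hi j hj hij
  · rw [Finset.card_image_of_injective _ hinj, hpc]
    have h8 : m - t < (Ym R ω : ℝ) := hcon
    linarith

end conc

end Pool.Agent.Helper63.SM
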